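import Pool.Agent.helper68.GB.Spec

/-!
# Row gb:UQT (MP_baa4d7_al): uniqueness of the pairs below a given pair (Alperin, Broué)
-/

set_option autoImplicit false

namespace Pool.Agent.GB

open Pool.Agent.helper58.DC Pool.Agent.DI Pool.Agent.GR Pool.Agent.OB Pool.Agent.DR Pool.Agent.FI Pool.Agent.FI3 Pool.Agent.FI4 Pool.Agent.LE Pool.Agent.BR

/-- The normaliser condition in a finite `p`-group. -/
theorem UQT_ncond {G : Type} [Group G] [Finite G] {p : ℕ} (hp : p.Prime) (P Q : Subgroup G) (hP : IsPGroup p P)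
    (hQP : Q ≤ P) (hne : Q ≠ P) : Q < P ⊓ nz Q := by
  have : Fact p.Prime := ⟨hp⟩
  refine lt_of_le_not_ge (le_inf hQP Subgroup.le_normalizer) fun hle => ?_
  have : Group.IsNilpotent P := hP.isNilpotent
  have htop : Q.subgroupOf P < ⊤ := by
    refine lt_of_le_of_ne le_top fun h => ?_
    rw [Subgroup.subgroupOf_eq_top] at h
    exact hne (le_antisymm hQP h)
  have hlt := Group.normalizerCondition_of_isNilpotent (G := P) (Q.subgroupOf P) htop
  obtain ⟨x, hx, hxQ⟩ := SetLike.exists_of_lt hlt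
  apply hxQ
  rw [Subgroup.mem_subgroupOf]
  apply hle
  refine Subgroup.mem_inf.mpr ⟨x.2, ?_⟩
  rw [Subgroup.mem_normalizer_iff] at hx ⊢
  intro g
  constructor
  · intro hg
    have h1 := (hx ⟨g, hQP hg⟩).1 (by
      rw [Subgroup.mem_subgroupOf]
      exact hg)
    rw [Subgroup.mem_subgroupOf] at h1
    exact h1
  · intro hg
    have hgP : g ∈ P := by
      have h2 : (x : G)⁻¹ * (x * g * (x : G)⁻¹) * x ∈ P :=
        P.mul_mem (P.mul_mem (P.inv_mem x.2) (hQP hg)) x.2
      have e : (x : G)⁻¹ * (x * g * (x : G)⁻¹) * x = g := by group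
      rwa [e] at h2
    have h1 := (hx ⟨g, hgP⟩).2 (by
      rw [Subgroup.mem_subgroupOf]
      exact hg)
    rw [Subgroup.mem_subgroupOf] at h1
    exact h1

theorem UQT_refl (hREP : REP_stmt) {p : ℕ} {M : Ideal (integralClosure ℤ ℂ)} (hS : Setup p M) {G : Type} [Group G]
    [Finite G] {Q : Subgroup G} {e : G → ℂ} (h : Pai p M Q e) : Nin p M Q e Q e := by
  obtain ⟨-, -, -, h4, -⟩ := hREP p M hS G (cz Q)
  obtain ⟨-, hv, -, hcv⟩ := h4 e h.bb
  refine ⟨h, h, le_rfl, Subgroup.le_normalizer, ?_, ?_⟩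
  · intro s hs x
    by_cases hx : x ∈ cz Q
    · have e1 : s * x * s⁻¹ = x := by
        have h2 := Subgroup.mem_centralizer_iff.mp hx s hs
        rw [h2]
        group
      rw [e1]
    · have hx2 : s * x * s⁻¹ ∉ cz Q := by
        intro h3
        apply hx
        have h4 := Subgroup.mem_centralizer_iff.mp h3 s hs
        have e1 : s * x * s⁻¹ = x := by
          have h5 : s⁻¹ * (s * (s * x * s⁻¹)) = s⁻¹ * (s * x * s⁻¹ * s) := by rw [h4]
          have e2 : s⁻¹ * (s * (s * x * s⁻¹)) = s * x * s⁻¹ := by group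
          have e3 : s⁻¹ * (s * x * s⁻¹ * s) = x := by group
          rw [e2, e3] at h5
          exact h5
        rwa [e1] at h3
      rw [hv x hx, hv _ hx2]
  · intro x
    have e1 : rsk (cz Q) e = e := by
      funext y
      unfold rsk
      split_ifs with hy
      · rfl
      · rw [hv y hy]
    rw [e1, hcv, sub_self]
    exact InM.zero hS

/-- The recursive definition. -/
theorem UQT_exF (hNIX : NIX_stmt) {p : ℕ} {M : Ideal (integralClosure ℤ ℂ)} (hS : Setup p M) {G : Type} [Group G]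
    [Finite G] {P : Subgroup G} {f : G → ℂ} (hp : p.Prime) (hP : Pai p M P f) :
    ∃ F : Subgroup G → (G → ℂ), F P = f ∧ (∀ Q : Subgroup G, Q ≤ P → Pai p M Q (F Q)) ∧
      ∀ Q : Subgroup G, Q ≤ P → Q ≠ P → Nin p M Q (F Q) (P ⊓ nz Q) (F (P ⊓ nz Q)) := by
  classical
  have wf : WellFounded ((· > ·) : Subgroup G → Subgroup G → Prop) := wellFounded_gt
  let step : (Q : Subgroup G) → ((R : Subgroup G) → R > Q → (G → ℂ)) → (G → ℂ) := fun Q rec =>
    if hQ : P ⊓ nz Q > Q then
      (if h : ∃ e, Nin p M Q e (P ⊓ nz Q) (rec (P ⊓ nz Q) hQ) then h.choose else 0) else f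
  let F : Subgroup G → (G → ℂ) := wf.fix step
  have hF : ∀ Q, F Q = step Q (fun R _ => F R) := fun Q => wf.fix_eq step Q
  have hFP : F P = f := by
    rw [hF]
    have : ¬ (P ⊓ nz P > P) := fun h => absurd h (not_lt_of_ge inf_le_left)
    simp only [step, dif_neg this]
  have hstep : ∀ Q : Subgroup G, Q ≤ P → Q ≠ P → Pai p M (P ⊓ nz Q) (F (P ⊓ nz Q)) →
      Nin p M Q (F Q) (P ⊓ nz Q) (F (P ⊓ nz Q)) := by
    intro Q hQ hne hN
    have hlt := UQT_ncond hp P Q hP.pg hQ hne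
    obtain ⟨e, he, -⟩ := hNIX p M hS G Q (P ⊓ nz Q) (F (P ⊓ nz Q)) hN hlt.le inf_le_right
    have hex : ∃ e, Nin p M Q e (P ⊓ nz Q) (F (P ⊓ nz Q)) := ⟨e, he⟩
    have : F Q = hex.choose := by
      rw [hF Q]
      have h1 : P ⊓ nz Q > Q := hlt
      simp only [step, dif_pos h1, dif_pos hex]
    rw [this]
    exact hex.choose_spec
  have hPai : ∀ Q : Subgroup G, Q ≤ P → Pai p M Q (F Q) := by
    intro Q
    induction Q using wf.induction with
    | _ Q ih =>
      intro hQ
      by_cases hne : Q = P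
      · rw [hne, hFP]
        exact hP
      · have hlt := UQT_ncond hp P Q hP.pg hQ hne
        exact (hstep Q hQ hne (ih (P ⊓ nz Q) hlt inf_le_left)).q
  exact ⟨F, hFP, hPai, fun Q hQ hne => hstep Q hQ hne (hPai _ inf_le_left)⟩

theorem UQT_a (hNIT : NIT_stmt) (hREP : REP_stmt) {p : ℕ} {M : Ideal (integralClosure ℤ ℂ)} (hS : Setup p M)
    {G : Type} [Group G] [Finite G] {P : Subgroup G} {f : G → ℂ} (hp : p.Prime) (hP : Pai p M P f)
    (F : Subgroup G → (G → ℂ)) (hF : ∀ Q : Subgroup G, Q ≤ P → Pai p M Q (F Q))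
    (hF2 : ∀ Q : Subgroup G, Q ≤ P → Q ≠ P → Nin p M Q (F Q) (P ⊓ nz Q) (F (P ⊓ nz Q))) :
    ∀ Q : Subgroup G, Q ≤ P → ∀ R : Subgroup G, Q ≤ R → R ≤ P → R ≤ nz Q → Nin p M Q (F Q) R (F R) := by
  have wf : WellFounded ((· > ·) : Subgroup G → Subgroup G → Prop) := wellFounded_gt
  intro Q
  induction Q using wf.induction with
  | _ Q ihQ =>
    intro hQ R
    induction R using wf.induction with
    | _ R ihR =>
      intro hQR hRP hRn
      by_cases h1 : Q = R
      · subst h1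
        exact UQT_refl hREP hS (hF Q hQ)
      · have hlt : Q < R := lt_of_le_of_ne hQR h1
        have hQP : Q ≠ P := by
          intro h2
          rw [h2] at hlt
          exact absurd hRP (not_le_of_gt hlt)
        by_cases h2 : R = P ⊓ nz Q
        · rw [h2]
          exact hF2 Q hQ hQP
        · have hRN : R ≤ P ⊓ nz Q := le_inf hRP hRn
          have hNp : IsPGroup p (P ⊓ nz Q : Subgroup G) := hP.pg.to_le inf_le_left
          have hlt2 := UQT_ncond hp (P ⊓ nz Q) R hNp hRN h2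
          have i1 : Nin p M R (F R) ((P ⊓ nz Q) ⊓ nz R) (F ((P ⊓ nz Q) ⊓ nz R)) :=
            ihQ R hlt hRP _ hlt2.le (inf_le_left.trans inf_le_left) inf_le_right
          have i2 : Nin p M Q (F Q) ((P ⊓ nz Q) ⊓ nz R) (F ((P ⊓ nz Q) ⊓ nz R)) :=
            ihR _ hlt2 (hQR.trans hlt2.le) (inf_le_left.trans inf_le_left) (inf_le_left.trans inf_le_right)
          exact hNIT p M hS G Q R _ (F Q) (F R) _ hQR i1 i2

theorem UQT (hNIX : NIX_stmt) (hNIT : NIT_stmt) (hREP : REP_stmt) : UQT_stmt := by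
  intro p M hS G _ _ P f hP
  have hp : p.Prime := hS.pr
  have wf : WellFounded ((· > ·) : Subgroup G → Subgroup G → Prop) := wellFounded_gt
  obtain ⟨F, hFP, hF, hF2⟩ := UQT_exF hNIX hS hp hP
  have ha := UQT_a hNIT hREP hS hp hP F hF hF2
  have hb : ∀ (Q : Subgroup G) (e : G → ℂ), Pin p M Q e P f → Q ≤ P ∧ e = F Q := by
    intro Q e h
    have h1 : ∀ a : Subgroup G × (G → ℂ),
        Relation.ReflTransGen (fun a b : Subgroup G × (G → ℂ) => Nin p M a.1 a.2 b.1 b.2) a (P, f) →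
          a.1 ≤ P ∧ a.2 = F a.1 := by
      intro a h
      induction h using Relation.ReflTransGen.head_induction_on with
      | refl => exact ⟨le_rfl, hFP.symm⟩
      | head h _ ih =>
        obtain ⟨ih1, ih2⟩ := ih
        have hle := h.le.trans ih1
        refine ⟨hle, ?_⟩
        rw [ih2] at h
        have h3 := ha _ hle _ h.le ih1 h.nor
        obtain ⟨e₀, -, hu⟩ := hNIX p M hS G _ _ _ h.r h.le h.nor
        rw [hu _ h, hu _ h3]
    exact h1 (Q, e) h
  have hc : ∀ Q R : Subgroup G, Q ≤ R → R ≤ P → Pin p M Q (F Q) R (F R) := by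
    intro Q
    induction Q using wf.induction with
    | _ Q ih =>
      intro R hQR hRP
      by_cases h1 : Q = R
      · subst h1
        exact Relation.ReflTransGen.refl
      · have hlt := UQT_ncond hp R Q (hP.pg.to_le hRP) hQR h1
        have h2 : Nin p M Q (F Q) (R ⊓ nz Q) (F (R ⊓ nz Q)) :=
          ha Q (hQR.trans hRP) _ hlt.le (inf_le_left.trans hRP) inf_le_right
        have h3 : Pin p M (R ⊓ nz Q) (F (R ⊓ nz Q)) R (F R) := ih _ hlt R inf_le_left hRP
        exact Relation.ReflTransGen.head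
          (r := fun a b : Subgroup G × (G → ℂ) => Nin p M a.1 a.2 b.1 b.2) (b := (R ⊓ nz Q, F (R ⊓ nz Q))) h2 h3
  have hcP : ∀ Q : Subgroup G, Q ≤ P → Pin p M Q (F Q) P f := by
    intro Q hQ
    have h1 := hc Q P hQ le_rfl
    rw [hFP] at h1
    exact h1
  have hun : ∀ Q : Subgroup G, Q ≤ P → un p M P f Q = F Q := by
    intro Q hQ
    have hex : ∃ e, Pin p M Q e P f := ⟨F Q, hcP Q hQ⟩
    unfold un
    rw [dif_pos hex]
    exact (hb Q _ hex.choose_spec).2
  refine ⟨?_, ?_, ?_, ?_, ?_⟩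
  · rw [hun P le_rfl, hFP]
  · intro Q hQ
    rw [hun Q hQ]
    exact ⟨hF Q hQ, hcP Q hQ⟩
  · intro Q R hQR hRP hRn
    rw [hun Q (hQR.trans hRP), hun R hRP]
    exact ha Q (hQR.trans hRP) R hQR hRP hRn
  · intro Q e h
    obtain ⟨h1, h2⟩ := hb Q e h
    exact ⟨h1, by rw [hun Q h1, h2]⟩
  · intro Q R hQR hRP
    rw [hun Q (hQR.trans hRP), hun R hRP]
    refine ⟨hc Q R hQR hRP, ?_⟩
    have hex : ∃ e, Pin p M Q e R (F R) := ⟨F Q, hc Q R hQR hRP⟩
    unfold un
    rw [dif_pos hex]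
    have h1 : Pin p M Q hex.choose P f := Relation.ReflTransGen.trans hex.choose_spec (hcP R hRP)
    exact (hb Q _ h1).2

end Pool.Agent.GB
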